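import Pool.Agent.Helper65.OH.Defs

/-!
# Turing machines with several heads on a tape of dimension `D`: definitions
-/

namespace Pool.Agent.Helper78.ME

open Pool.Agent.Helper65.LinSpace Pool.Agent.Helper78.Mpc Pool.Agent.Helper28.Ram
open Pool.Agent.Helper65.OH (letW mv)

/-- The number of the active head, which the machine writes into its state: the number of the
letters `1` among the letters number `2 D + 1, …, 2 D + k - 1` of the state (the first letter has the
number `0`). -/
def act (D k : ℕ) (q : List Bool) : ℕ := ((q.drop (2 * D + 1)).take (k - 1)).count true

/-- A machine with `k` heads on a common `D`-dimensional tape `ℤ^D`. Its state and the contents of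
the cells are words. In one step the machine in the state `q`, with its active head on a cell with
the content `v`, reads the letters `a` and `b` of the input word and of the guessed word whose index is
written in binary as `addr q`; its new state is `next (⟨q⟩ a b v)`, the new content of the cell is
`write (⟨q⟩ a b v)`, and the active head moves by the displacement written in the new state; here `⟨q⟩`
is the self-delimiting code of `q`. The number of the active head is written in the state. The
functions `addr`, `next` and `write` are computed in linear space. -/
structure Heads (D k : ℕ) where
  start : List Bool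
  addr : List Bool → List Bool
  next : List Bool → List Bool
  write : List Bool → List Bool
  addr_lin : LinComp addr
  next_lin : LinComp next
  write_lin : LinComp write

/-- A configuration: the state, the positions of the heads (those with the numbers `0, …, k - 1` are
used) and the contents of the cells. -/
structure Conf (D : ℕ) where
  q : List Bool
  h : ℕ → Fin D → ℤ
  M : (Fin D → ℤ) → List Bool

variable {D k : ℕ}

/-- The word which the functions `next` and `write` get. -/
def Heads.inp (A : Heads D k) (w y : List Bool) (q v : List Bool) : List Bool :=
  sd q ++ (letW w[bval (A.addr q)]? ++ (letW y[bval (A.addr q)]? ++ v))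

/-- One step on the input word `w` and the guessed word `y`. -/
def Heads.step (A : Heads D k) (w y : List Bool) (c : Conf D) : Conf D where
  q := A.next (A.inp w y c.q (c.M (c.h (act D k c.q))))
  h := Function.update c.h (act D k c.q) fun i =>
    c.h (act D k c.q) i + mv (A.next (A.inp w y c.q (c.M (c.h (act D k c.q))))) i
  M := Function.update c.M (c.h (act D k c.q))
    (A.write (A.inp w y c.q (c.M (c.h (act D k c.q)))))

/-- The configuration after `t` steps. At the start all heads are on the cell `0`, and all cells
contain the empty word. -/
def Heads.conf (A : Heads D k) (w y : List Bool) : ℕ → Conf D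
  | 0 => ⟨A.start, fun _ _ => 0, fun _ => []⟩
  | t + 1 => A.step w y (A.conf w y t)

/-- Up to the time `r`, the state, the address and the contents of all cells are words of length at
most `s`. -/
def Heads.Fits (A : Heads D k) (w y : List Bool) (r s : ℕ) : Prop :=
  ∀ t ≤ r, (A.conf w y t).q.length ≤ s ∧ (A.addr (A.conf w y t).q).length ≤ s ∧
    ∀ z, ((A.conf w y t).M z).length ≤ s

/-- The first letter of the state after `r` steps is `1`. -/
def Heads.AcceptsAt (A : Heads D k) (w y : List Bool) (r : ℕ) : Prop :=
  (A.conf w y r).q.head? = some true

/-- `A` accepts the language `L` with at most `g n` guessed bits and with a running time `r` and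
words of length `s` such that `r * s ^ (D / (2 D - 1)) ≤ P n` and `s ≤ Q n`, `n` being the length of the
input word `w`: `w` is in `L` if and only if for some guess `y` the machine accepts at some time, and
for `w` in `L` this happens within the stated bounds for some `y`. -/
def Heads.Accepts (A : Heads D k) (L : Set (List Bool)) (g P Q : ℕ → ℝ) : Prop :=
  (∀ w y r, A.AcceptsAt w y r → w ∈ L) ∧
  ∀ w ∈ L, ∃ (y : List Bool) (r s : ℕ), (y.length : ℝ) ≤ g w.length ∧
    (r : ℝ) * (s : ℝ) ^ ((D : ℝ) / (2 * (D : ℝ) - 1)) ≤ P w.length ∧ (s : ℝ) ≤ Q w.length ∧
    A.Fits w y r s ∧ A.AcceptsAt w y r

end Pool.Agent.Helper78.ME
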