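import Pool.Agent.Helper78.ME.Main
import Pool.Agent.Helper78.Ep.Final
import Pool.Agent.Helper70.ME.LKT
import Pool.Agent.Helper13.ME.WF
import Pool.Agent.Helper79.ME.WH
import Pool.Agent.Helper75.ME.LSF
import Pool.Agent.Helper58.ME.LSH
import Pool.Agent.Helper37.ME.DEC
import Pool.Agent.Helper35.ME.GEO
import Pool.Agent.Helper35.ME.MOV
import Pool.Agent.Helper35.ME.ACT
import Pool.Agent.Helper35.ME.MCOR
import Pool.Agent.Helper35.ME.MLS1
import Pool.Agent.Helper79.ME.NOK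
import Pool.Agent.Helper29.ME.STEP
import Pool.Agent.Helper94.ME.DIM
import Pool.Agent.Helper85.ME.MLS2
import Pool.Agent.Helper73.ME.MLS3
import Pool.Agent.Helper94.ME.PAR1
import Pool.Agent.Helper38.ME.PAR2
import Pool.Agent.Helper61.ME.PAR

/-!
# All parts of the simulation of machines with several heads
-/

namespace Pool.Agent.Helper78.ME

theorem dec : DEC_stmt := Pool.Agent.Helper37.ME.DEC

theorem mov : MOV_stmt := Pool.Agent.Helper35.ME.MOV dec

theorem dim : DIM_stmt := Pool.Agent.Helper94.ME.DIM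

theorem parts : Parts where
  ep := Ep.parts
  WF := Pool.Agent.Helper13.ME.WF Pool.Agent.Helper70.ME.LKT
  WH := Pool.Agent.Helper79.ME.WH Pool.Agent.Helper70.ME.LKT
  LSF := Pool.Agent.Helper75.ME.LSF
  LSH := Pool.Agent.Helper58.ME.LSH
  NOK := Pool.Agent.Helper79.ME.NOK dec Pool.Agent.Helper35.ME.GEO mov
  MCOR := Pool.Agent.Helper35.ME.MCOR dec mov
    (Pool.Agent.Helper29.ME.STEP dec mov Pool.Agent.Helper35.ME.ACT)
  DIM := dim
  MLS1 := Pool.Agent.Helper35.ME.MLS1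
  MLS2 := Pool.Agent.Helper85.ME.MLS2 Pool.Agent.Helper35.ME.MLS1
  MLS3 := Pool.Agent.Helper73.ME.MLS3 Pool.Agent.Helper35.ME.MLS1
    (Pool.Agent.Helper85.ME.MLS2 Pool.Agent.Helper35.ME.MLS1) dim
  PAR := Pool.Agent.Helper61.ME.PAR Pool.Agent.Helper94.ME.PAR1
    (Pool.Agent.Helper38.ME.PAR2 dim)
  PAR5 := Pool.Agent.Helper61.ME.PAR5

end Pool.Agent.Helper78.ME
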