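import Pool.Agent.Helper78.ME.Num
import Pool.Agent.Helper65.OH.Goals

/-!
# Machines with several heads: the statements of the parts
-/

namespace Pool.Agent.Helper78.ME

open Pool.Agent.Helper65.LinSpace Pool.Agent.Helper78.Mpc Pool.Agent.Helper28.Ram Finset Filter
open Pool.Agent.Helper65.OH (letW mv InBox co)

/-! ### The machine on numbers -/

/-- DEC. The components of a code, by `dig_tab`, `tab_lt`, `tab_congr`, `Nat.add_mul_div_left` etc.
(`(j * D + i) / D = j`, `(j * D + i) % D = i` for `i < D`; `j * D + i < D * (k + 1)` for `j ≤ k`). -/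
structure DEC_stmt : Prop where
  mk_lt : ∀ (m : Prm) (u l : ℕ) (c : ℕ → ℕ → ℕ), u < 2 ^ (m.S + 1) → l < 2 ^ (m.S + 1) →
    (∀ j ≤ m.k, ∀ i < m.D, c j i < 2 ^ m.κ) → m.mk' u l c < 2 ^ m.σ ∧ m.wq (m.mk' u l c) = u ∧
      m.wl (m.mk' u l c) = l ∧ ∀ j ≤ m.k, ∀ i < m.D, m.cq (m.mk' u l c) j i = c j i
  cq_lt : ∀ (m : Prm) (v j i : ℕ), m.cq v j i < 2 ^ m.κ
  dig_pos : ∀ (m : Prm) (v j : ℕ), ∀ i < m.D, dig (2 ^ m.κ) (m.pos v j) i = m.cq v j i
  aj_lt : ∀ (m : Prm) (v : ℕ), 0 < m.k → m.aj v < m.k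

/-- GEO. The cell `p` whose coordinates differ by less than `d` from those of the cell `p₀` is in the
module `cb p₀`. The digit `i` of `cb p₀` is `x = p₀ i / d < 2 ^ κ`; so
`x * d ≤ p₀ i ≤ p i + d - 1` and `p i + d < x * d + 3 * d`, so the digit `i` of `ix` is
`c = p i + d - x * d < 3 * d`, and `x * d + c - d = p i < 2 ^ κ`. -/
def GEO_stmt : Prop := ∀ (m : Prm), 0 < m.d →
    (∀ p, m.cb p < 2 ^ (m.κ * m.D + 1)) ∧
    ∀ (p p₀ : ℕ → ℕ), (∀ i < m.D, p i < 2 ^ m.κ ∧ p₀ i < 2 ^ m.κ ∧ p i < p₀ i + m.d ∧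
      p₀ i < p i + m.d) →
    m.ix (m.cb (tab (2 ^ m.κ) m.D p₀)) (tab (2 ^ m.κ) m.D p) < (3 * m.d) ^ m.D ∧
      m.cel (m.cb (tab (2 ^ m.κ) m.D p₀))
        (m.ix (m.cb (tab (2 ^ m.κ) m.D p₀)) (tab (2 ^ m.κ) m.D p)) = tab (2 ^ m.κ) m.D p

/-- MOV (may assume DEC). One step on numbers. In the three cases of `nx` (if `ok v c ≠ 0`, then
`viol = 0`, so that the new coordinates `cq + pl - mi` are `< 2 ^ κ`; `pl, mi ≤ 1`; `nu, nw < 2 ^ (S + 1)`
by `capN_lt`). -/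
def MOV_stmt : Prop := ∀ (m : Prm) (v c : ℕ), 0 < m.k → c < 2 ^ (m.S + 1) →
    m.nx v c < 2 ^ m.σ ∧ m.pos (m.nx v c) m.k = m.pos v (m.aj v) ∧
      (∀ j < m.k, ∀ i < m.D, m.cq (m.nx v c) j i ≤ m.cq v j i + 1 ∧
        m.cq v j i ≤ m.cq (m.nx v c) j i + 1) ∧
      m.wq (m.nx v c) = ifz (accN (m.wq v)) (ifz (m.ok v c) 0 (m.nu v c)) (m.wq v) ∧
      m.wl (m.nx v c) = ifz (accN (m.wq v)) (ifz (m.ok v c) c (m.nw v c)) c ∧
      ∀ j < m.k, ∀ i < m.D, m.cq (m.nx v c) j i = ifz (accN (m.wq v)) (ifz (m.ok v c) (m.cq v j i)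
        (ifz (eq01 j (m.aj v)) (m.cq v j i)
          (m.cq v j i + Prm.pl (m.nu v c) i - Prm.mi (m.nu v c) i))) (m.cq v j i)

/-- NOK (may assume DEC, GEO, MOV). The machine on numbers has the properties of `Wk.Good`. By
induction on `t` the event is `< 2 ^ σ` and all contents are `< 2 ^ (S + 1)` (`1 < 2 ^ (S + 1)`,
`wl < 2 ^ (S + 1)`). `geo`: by induction on `r` the coordinates of the head `j` at the times `t` and `t + r`
differ by at most `r`. -/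
def NOK_stmt : Prop := ∀ (m : Prm), 0 < m.κ → 0 < m.d → 0 < m.e → 0 < m.k → m.wk.Good

/-! ### Correctness -/

/-- `m` has the parameters of the machine `A` with the codes `eA`, `eN`, `eW`. -/
structure Par {D k : ℕ} (A : Heads D k) (eA eN eW c : ℕ) (w y : List Bool) (m : Prm) : Prop where
  h_eA : m.eA = eA
  h_eN : m.eN = eN
  h_eW : m.eW = eW
  h_st : m.st = num A.start
  h_x : m.x = num w
  h_y : m.y = num y
  h_D : m.D = D
  h_k : m.k = k
  pos_k : 0 < k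
  pos_κ : 0 < m.κ
  h_Λ : c * (4 * m.S + 8) ≤ m.Λ
  h_β : c + m.Λ + 4 * m.S + 8 ≤ m.β
  h_B : 2 ^ (m.S + 1) ≤ m.B

/-- The functions of `A` are computed correctly for words of length at most `3 S + 5`. -/
structure Fns {D k : ℕ} (A : Heads D k) (m : Prm) : Prop where
  addr : Good A.addr m.eA m.S m.Λ m.β m.B (3 * m.S + 5)
  next : Good A.next m.eN m.S m.Λ m.β m.B (3 * m.S + 5)
  write : Good A.write m.eW m.S m.Λ m.β m.B (3 * m.S + 5)

/-- The event `v` codes the state and the positions of the heads of the configuration `C`, and the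
contents of the cells of the box are those of `mem`. -/
structure GoodC {D : ℕ} (m : Prm) (C : Conf D) (v : ℕ) (mem : ℕ → ℕ) : Prop where
  wq : m.wq v = num C.q
  len : C.q.length ≤ m.S
  cq : ∀ j < m.k, ∀ i : Fin D, ((m.cq v j i : ℕ) : ℤ) = C.h j i + 2 ^ (m.κ - 1)
  mem : ∀ z, InBox m.κ z → (C.M z).length ≤ m.S ∧
    mem (tab (2 ^ m.κ) D (co m.κ z)) = num (C.M z)

/-- ACT. The number of the active head. `letN_num`: `letN (num q) n = codeO q[n]?`, which is `2` if and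
only if `q[n]? = some true`. The number of the letters `1` among the letters number `a, …, a + l - 1`
is the sum of `l` terms (induction on `l`, `List.take_succ`, `List.getElem?_drop`). It is at most
`k - 1`. -/
def ACT_stmt : Prop := (∀ (D k : ℕ) (q : List Bool),
    ∑ i ∈ range (k - 1), eq01 (letN (num q) (2 * D + 1 + i)) 2 = act D k q) ∧
  ∀ (D k : ℕ) (q : List Bool), 0 < k → act D k q < k

/-- STEP (may assume DEC, MOV, ACT). One step; compare the proof for one head in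
`Helper75/OH/STEP.lean`. Let `j = aj v = act D k C.q < k`, `p = pos v j`, `z = C.h j`, which is in the box,
`p = tab (2^κ) D (co κ z)`, and `c = mem p = num (C.M z)`. `adN v = num (A.addr C.q)` if this word has
length `≤ S` and `0` otherwise, so `adr v = bval (A.addr C.q)`. If `adN v ≠ 0` then `inpN v c = num u`,
`u = A.inp w y C.q (C.M z)` (`sdN_num`, `letN_num`, `lw (codeO o) = num (letW o)`, `catN_num`;
`|u| ≤ 3 S + 5`). So `nu`, `nw` are the numbers of the new state and the new content, or `0` if these words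
are too long; and `pl nu i - mi nu i = mv (new state) i`; `viol = 0` if and only if the new position of
the head `j` is in the box. If `ok v c = 0` the new state is `0`. If `ok v c ≠ 0`, the new event and the
new contents are good for `A.step w y C`: only the cell `z` changes, and different cells of the box have
different numbers. -/
def STEP_stmt : Prop := ∀ {D k : ℕ} (A : Heads D k) (eA eN eW c : ℕ) (w y : List Bool) (m : Prm),
    Par A eA eN eW c w y m → Fns A m → ∀ (C : Conf D) (v : ℕ) (mem : ℕ → ℕ), GoodC m C v mem →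
    C.q.head? ≠ some true →
    ((m.ok v (mem (m.pos v (m.aj v))) = 0 ∧ m.wq (m.nx v (mem (m.pos v (m.aj v)))) = 0) ∨
      (m.ok v (mem (m.pos v (m.aj v))) ≠ 0 ∧
        GoodC m (A.step w y C) (m.nx v (mem (m.pos v (m.aj v))))
          (Function.update mem (m.pos v (m.aj v)) (m.wl (m.nx v (mem (m.pos v (m.aj v)))))))) ∧
    ((A.addr C.q).length ≤ m.S → (A.step w y C).q.length ≤ m.S →
      (∀ z, ((A.step w y C).M z).length ≤ m.S) →
      (∀ j < k, InBox m.κ ((A.step w y C).h j)) → m.ok v (mem (m.pos v (m.aj v))) ≠ 0)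

/-- MCOR (may assume DEC, MOV, STEP). Let `eA, eN, eW` be the codes of `addr`, `next`, `write`
(`fnN_spec` in `Mpc/Words.lean`), `c` the sum of the constants; then `Par` implies `Fns`; compare
`Pool/Agent/Helper53/OH/MCOR.lean`. By induction on `T`: the state of `conf T` is failing (`wq = 0`), or
there is a `τ ≤ T` such that `conf T` is good (`GoodC`) for `A.conf w y τ`, and `τ = T` or the state of
`A.conf w y τ` begins with `1`. (`accN (num q) = 1` if and only if `q.head? = some true`. If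
`accN (wq v) ≠ 0` the state, the positions of the heads and all contents are kept: `wl (nx v c) = c`, so
`Function.update` changes nothing. If `wq v = 0` then `accN 0 = 0` and `adN v = 0` (`fnN … 0 = 0`), so
`ok = 0` and `wq` remains `0`. At the start: `num [] = 1`, the coordinates are `2 ^ (κ - 1)`; if `A.start` is
too long, `capN = 0` and the run is failing.) This gives the first claim. For the second claim no
failure occurs up to the time `r`: all lengths are `≤ S` and `|C_t.h j i| ≤ t ≤ r < 2 ^ (κ - 1)`; so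
`conf r` is good for `A.conf w y τ` with `τ = r`, or for an accepting one, and an accepting state is
kept. -/
def MCOR_stmt : Prop := ∀ {D k : ℕ} (A : Heads D k), ∃ eA eN eW c : ℕ,
    ∀ (w y : List Bool) (m : Prm), Par A eA eN eW c w y m →
    (∀ T, accN (m.wq (m.wk.conf T).1) = 1 → ∃ t, A.AcceptsAt w y t) ∧
    ∀ r T, A.Fits w y r m.S → A.AcceptsAt w y r → r < 2 ^ (m.κ - 1) → r ≤ T →
      accN (m.wq (m.wk.conf T).1) = 1

/-! ### The parameters -/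

/-- DIM. The parameters always fit. Put `d = dd n S D k`. `fits n S D k j` is decreasing in `j ≥ 1` and
`0` or `1`; so if `d > 0` then `fits n S D k d = 1` and `fits n S D k (d + 1) = 0` (`d ≤ cost ≤ mR n ≤ n + 8`,
since `cost ≥ d ^ (D - 1) * (2 * (d ^ (D - 1) * d)) ≥ d`, so `d + 1 ≤ n + 9`). If `dd = 0` the parameters are
`S = D = 0`, `k = d = e = 1`, and all inequalities are `8 ≤ mR n` etc. (`ll n ≥ 1`). The inequalities for
`K = blocks n S D k` by `Nat.div_mul_le_self`. -/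
def DIM_stmt : Prop :=
  (∀ n S D k, 0 < k → 0 < dd n S D k → fits n S D k (dd n S D k) = 1 ∧
    fits n S D k (dd n S D k + 1) = 0 ∧ dd n S D k ≤ n + 8) ∧
  ∀ (eA eN eW st x y S D k : ℕ), 0 < (prm eA eN eW st x y S D k).d ∧
    0 < (prm eA eN eW st x y S D k).e ∧ 0 < (prm eA eN eW st x y S D k).k ∧
    Ep.Par (Nat.log 2 x) (blocks (Nat.log 2 x) S D k) (prm eA eN eW st x y S D k).wk.mach

/-- The parameters are computed in linear space. -/
def Inp {α : Type} [Ctx α] (eA eN eW st x y S D k : α → ℕ) : Prop :=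
  LS eA ∧ LS eN ∧ LS eW ∧ LS st ∧ LS x ∧ LS y ∧ LS S ∧ LS D ∧ LS k

/-- MLS1. The parameters are computed in linear space. `n = log x`; `D ≤ ll n`, so for `j ≤ n + 9` the
powers `j ^ (D - 1)` and `(3 j) ^ D` are at most `(3 (n + 9)) ^ (ll n) ≤ (x + 2) ^ 100`
(`3 (n + 9) ≤ 2 ^ (ll n + 6)`, `(ll n) ^ 2 ≤ 3 (n + 1)`, `ll n ≤ n + 1`, and
`two_pow_log_le : 2 ^ (k * (log x + 1)) ≤ (x + 2) ^ (2 k)`); use `LS.pow_of_le`, and `LS.sum` or
`LS.sum_le` for `dd`. -/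
def MLS1_stmt : Prop := ∀ {α : Type} [Ctx α] {x S D k : α → ℕ}, LS x → LS S → LS D → LS k →
    LS (fun z => dd (Nat.log 2 (x z)) (min (S z) (Nat.log 2 (x z)))
      (min (D z) (ll (Nat.log 2 (x z)))) (min (k z - 1) (Nat.log 2 (x z)) + 1)) ∧
    LS (fun z => pS (Nat.log 2 (x z)) (S z) (D z) (k z)) ∧
    LS (fun z => pD (Nat.log 2 (x z)) (S z) (D z) (k z)) ∧
    LS (fun z => pk (Nat.log 2 (x z)) (S z) (D z) (k z)) ∧
    LS (fun z => pd (Nat.log 2 (x z)) (S z) (D z) (k z)) ∧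
    LS (fun z => pd (Nat.log 2 (x z)) (S z) (D z) (k z) ^
      (pD (Nat.log 2 (x z)) (S z) (D z) (k z) - 1)) ∧
    LS (fun z => (3 * pd (Nat.log 2 (x z)) (S z) (D z) (k z)) ^
      pD (Nat.log 2 (x z)) (S z) (D z) (k z)) ∧
    LS (fun z => blocks (Nat.log 2 (x z)) (S z) (D z) (k z))

/-- MLS2 (may assume MLS1, DIM). The state functions are computed in linear space. Compare
`Helper54/OH/MLS.lean` and `Helper59/Ram/MLS.lean`, where `LS` of `fnN`, `capN`, `sdN`, `catN`, `letN` is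
used. `2 ^ (S + 1)` etc. are at most `2 ^ mR n ≤ CE x`, by `DIM` (`Ep.Par.h1`) or by `S ≤ n`. -/
def MLS2_stmt : Prop := ∀ {α : Type} [Ctx α] {eA eN eW st x y S D k : α → ℕ},
    Inp eA eN eW st x y S D k →
    LS (fun z : α × ℕ =>
      (prm (eA z.1) (eN z.1) (eW z.1) (st z.1) (x z.1) (y z.1) (S z.1) (D z.1) (k z.1)).wq z.2) ∧
    LS (fun z : α × ℕ =>
      (prm (eA z.1) (eN z.1) (eW z.1) (st z.1) (x z.1) (y z.1) (S z.1) (D z.1) (k z.1)).wl z.2) ∧
    LS (fun z : α × ℕ =>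
      (prm (eA z.1) (eN z.1) (eW z.1) (st z.1) (x z.1) (y z.1) (S z.1) (D z.1) (k z.1)).aj z.2) ∧
    LS (fun z : α × ℕ =>
      (prm (eA z.1) (eN z.1) (eW z.1) (st z.1) (x z.1) (y z.1) (S z.1) (D z.1) (k z.1)).adN z.2) ∧
    LS (fun z : α × ℕ × ℕ =>
      (prm (eA z.1) (eN z.1) (eW z.1) (st z.1) (x z.1) (y z.1) (S z.1) (D z.1) (k z.1)).nu
        z.2.1 z.2.2) ∧
    LS (fun z : α × ℕ × ℕ =>
      (prm (eA z.1) (eN z.1) (eW z.1) (st z.1) (x z.1) (y z.1) (S z.1) (D z.1) (k z.1)).nw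
        z.2.1 z.2.2)

/-- MLS3 (may assume MLS1, MLS2, DIM). The machines with several heads on numbers form a family
computed in linear space. All `tab`s have at most `2 ^ σ`, `2 ^ (κ * D)` or `(3 d) ^ D` as a bound, which is
at most `CE x`: `2 ^ σ ≤ 2 ^ mR n` by `DIM` (`Ep.Par.h1`), `κ * D ≤ σ`; `(3 d) ^ D ≤ (x + 2) ^ 100` as in MLS1;
`tab` with `LS.tab`; the other things are clear. -/
def MLS3_stmt : Prop := ∀ {α : Type} [Ctx α] {eA eN eW st x y S D k : α → ℕ},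
    Inp eA eN eW st x y S D k →
    LSW (fun z => (prm (eA z) (eN z) (eW z) (st z) (x z) (y z) (S z) (D z) (k z)).wk)
      (fun z => Ep.CE (x z))

/-- The bound for the length of the words. -/
def NS (n : ℕ) : ℕ := n / ll n / ll (ll n)

/-- PAR1. Let `M = mR n`, `λ = ll n = log n + 1`, `κ = 4 λ + 6 ≤ 10 λ`; constants depend on `C, D, k`.
(1) `s ≤ C (n + 1) / λ^2 < NS n` for large `n`, since `ll λ = o(λ)` (for instance
`ll λ ≤ 2 λ^(1/2) + 2`), and `NS n ≤ n`.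
(2) `fits n s D k 1 = 1`, so `dd ≥ 1`: `cost n s D k 1 = σ + (k + 1) (σ + (s + 1) 3^D)`,
`σ = 2 (s + 1) + κ D (k + 1)`, so `cost ≤ c₁ (s + 1) + c₂ λ ≤ M` for large `n`, since
`s + 1 = O(n / λ^2)`, `M ≥ n / λ`; and `(κ D + 1) k ≤ n + 8`, `κ D + 1 ≤ M + 1`.
(3) `r ≤ C (n + 1)^2 ≤ (n + 2)^4 < 2 ^ (kap n - 1)`, since `(3 D - 1) / (2 D - 1) ≤ 2` and `s ≥ 1`. -/
def PAR1_stmt : Prop := ∀ (D k : ℕ) (C : ℝ), 0 < D → 0 < k → ∀ᶠ n : ℕ in atTop, ∀ r s : ℕ, 1 ≤ s →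
    (r : ℝ) * (s : ℝ) ^ ((D : ℝ) / (2 * (D : ℝ) - 1)) ≤
      C * ((n : ℝ) + 1) ^ ((3 * (D : ℝ) - 1) / (2 * (D : ℝ) - 1)) /
        ((Nat.log 2 n : ℝ) + 1) ^ 5 →
    (s : ℝ) ≤ C * ((n : ℝ) + 1) / ((Nat.log 2 n : ℝ) + 1) ^ 2 →
    s < NS n ∧ s ≤ n ∧ 0 < dd n s D k ∧ r < 2 ^ (kap n - 1)

/-- PAR2 (may assume DIM). The number of steps which are simulated. `M = mR n`, `λ = ll n`,
`κ = kap n = 4 λ + 6 ≤ 10 λ`, `e = d ^ (D - 1)`; constants depend on `D, k`. For large `n` the limits in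
`blocks` are not active: `pD n s D k = D`, `pk n s D k = k`, `pd n s D k = dd n s D k = d` (`D ≤ ll n`,
`k ≤ n`, `s ≤ n`).
(1) `fits n s D k (d + 1) = 0`. Its third condition `κ D + 1 ≤ M + 1` is true for large `n`. If the second
one fails, `(κ D + 1) (k (d + 1)^(D-1)) > n + 8`, so `(d + 1)^(2D-1) ≥ (d + 1)^(D-1) ≥ n / (c λ)`. If the
first one fails, `M < cost n s D k (d + 1) ≤ (d + 1)^(2 D - 1) (σ + (k + 1)(σ + (s + 1) 3^D))
≤ c (d + 1)^(2 D - 1) λ (s + 1)`. In both cases, with `(d + 1) ≤ 2 d` and `s + 1 ≤ 2 s`,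
`d ^ (2 D - 1) ≥ c₄ n / (λ^2 s)`, `c₄ > 0`.
(2) From `fits n s D k d = 1`: `2 e (e d) ≤ cost ≤ M`, so `e ^ 2 ≤ M ≤ n + 8`, and `n / (λ^2 e)` tends to
infinity. The numbers `M / (e + 2)`, `(n + 8) / ((κ D + 1) (k e))` and `(M + 1) / (κ D + 1)` (real
quotients) are at least `c n / (λ^2 e)`, and for a real `a ≥ 4`, `⌊a⌋ - 1 ≥ a / 4`; so
`blocks ≥ c₅ n / (λ^2 e)`.
(3) So the number of steps is at least `c₅ n e d / λ^2 = c₅ n d^D / λ^2`, and
`d^D = (d^(2D-1))^(D/(2D-1)) ≥ c n^(D/(2D-1)) λ^(-2D/(2D-1)) s^(-D/(2D-1))` with `2D/(2D-1) ≤ 2`, `λ ≥ 1`,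
`1 + D/(2D-1) = (3D-1)/(2D-1)`. -/
def PAR2_stmt : Prop := ∀ (D k : ℕ), 0 < D → 0 < k → ∃ c : ℝ, 0 < c ∧ ∀ᶠ n : ℕ in atTop,
    ∀ s : ℕ, 1 ≤ s → s ≤ n → 0 < dd n s D k →
      c * (n : ℝ) ^ ((3 * (D : ℝ) - 1) / (2 * (D : ℝ) - 1)) / ((Nat.log 2 n : ℝ) + 1) ^ 4 ≤
        (s : ℝ) ^ ((D : ℝ) / (2 * (D : ℝ) - 1)) *
          (blocks n s D k * (dd n s D k ^ (D - 1) * (dd n s D k ^ (D - 1) * dd n s D k)) : ℕ)

/-- PAR (may assume PAR1, PAR2). With `N` the number of steps in PAR2,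
`r * s^θ ≤ C (n + 1)^ρ / λ^5 ≤ c n^ρ / λ^4 ≤ s^θ * N` for large `n` (`(n + 1)^ρ ≤ 4 n^ρ` as `ρ ≤ 2`,
`λ` tends to infinity), and `s^θ > 0`. -/
def PAR_stmt : Prop := ∀ (D k : ℕ) (C : ℝ), 0 < D → 0 < k → ∀ᶠ n : ℕ in atTop, ∀ r s : ℕ, 1 ≤ s →
    (r : ℝ) * (s : ℝ) ^ ((D : ℝ) / (2 * (D : ℝ) - 1)) ≤
      C * ((n : ℝ) + 1) ^ ((3 * (D : ℝ) - 1) / (2 * (D : ℝ) - 1)) /
        ((Nat.log 2 n : ℝ) + 1) ^ 5 →
    (s : ℝ) ≤ C * ((n : ℝ) + 1) / ((Nat.log 2 n : ℝ) + 1) ^ 2 →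
    s < NS n ∧ s ≤ n ∧ 0 < dd n s D k ∧ r < 2 ^ (kap n - 1) ∧
      r ≤ blocks n s D k * (dd n s D k ^ (D - 1) * (dd n s D k ^ (D - 1) * dd n s D k))

/-- PAR5. For large `n` the machines are as in `Par`: `LW n = n / ll n`;
`S < NS n = LW n / ll (ll n)` implies `S * ll (ll n) < LW n`, and `ll (ll n)` tends to infinity, so
`c * (4 S + 8) ≤ LW n` (`8 c * S ≤ S * ll (ll n)`, and `16 c ≤ LW n`). Compare
`Helper59/OH/PAR5.lean`. -/
def PAR5_stmt : Prop := ∀ c D k : ℕ, ∀ᶠ n : ℕ in atTop, D ≤ ll n ∧ k ≤ n ∧ ∀ S < NS n,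
    S ≤ n ∧ c * (4 * S + 8) ≤ LW n ∧ c + LW n + 4 * S + 8 ≤ 2 ^ (2 * ll n) ∧
    ∀ x, Nat.log 2 x = n → 2 ^ (S + 1) ≤ CR x

end Pool.Agent.Helper78.ME
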