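import Pool.Agent.Helper78.ME.Goals
import Pool.Agent.Helper28.Gen.Main

/-!
# Machines with several heads on a tape of dimension `D` are weaker than linear space
-/

namespace Pool.Agent.Helper78.ME

open Pool.Agent.Helper65.LinSpace Pool.Agent.Helper78.Mpc Pool.Agent.Helper28.Ram Finset Filter
open Pool.Agent.Helper65.OH (letW mv InBox co)

/-- The parts of the proof. -/
structure Parts : Prop where
  ep : Ep.Parts
  WF : WF_stmt
  WH : WH_stmt
  LSF : LSF_stmt
  LSH : LSH_stmt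
  NOK : NOK_stmt
  MCOR : MCOR_stmt
  DIM : DIM_stmt
  MLS1 : MLS1_stmt
  MLS2 : MLS2_stmt
  MLS3 : MLS3_stmt
  PAR : PAR_stmt
  PAR5 : PAR5_stmt

variable {α : Type} [Ctx α]

theorem kap_pos (n : ℕ) : 0 < kap n := Nat.succ_pos _

/-- The machines on numbers satisfy the conditions of itinerary machines. -/
theorem ok_prm (H : Parts) (eA eN eW st x y S D k : ℕ) :
    (prm eA eN eW st x y S D k).wk.mach.Ok := by
  obtain ⟨h1, h2, h3, _⟩ := H.DIM.2 eA eN eW st x y S D k
  exact (H.NOK _ (kap_pos _) h1 h2 h3).ok H.WF H.WH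

/-- The simulation: `1` if the machine with the code `E` accepts, with words of length `T`. -/
noncomputable def acc (E x y T : ℕ) : ℕ :=
  lt01 0 (dd (Nat.log 2 x) (min T (Nat.log 2 x)) (min (Nat.unpair E).1 (ll (Nat.log 2 x)))
    (min ((Nat.unpair (Nat.unpair E).2).1 - 1) (Nat.log 2 x) + 1)) *
  accN ((prm (Nat.unpair (Nat.unpair (Nat.unpair E).2).2).1
      (Nat.unpair (Nat.unpair (Nat.unpair (Nat.unpair E).2).2).2).1
      (Nat.unpair (Nat.unpair (Nat.unpair (Nat.unpair (Nat.unpair E).2).2).2).2).1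
      (Nat.unpair (Nat.unpair (Nat.unpair (Nat.unpair (Nat.unpair E).2).2).2).2).2 x y
      T (Nat.unpair E).1 (Nat.unpair (Nat.unpair E).2).1).wq
    ((prm (Nat.unpair (Nat.unpair (Nat.unpair E).2).2).1
      (Nat.unpair (Nat.unpair (Nat.unpair (Nat.unpair E).2).2).2).1
      (Nat.unpair (Nat.unpair (Nat.unpair (Nat.unpair (Nat.unpair E).2).2).2).2).1
      (Nat.unpair (Nat.unpair (Nat.unpair (Nat.unpair (Nat.unpair E).2).2).2).2).2 x y
      T (Nat.unpair E).1 (Nat.unpair (Nat.unpair E).2).1).wk.mach.sim (pR (Nat.log 2 x))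
        (Ep.JE (Nat.log 2 x))
        (blocks (Nat.log 2 x) T (Nat.unpair E).1 (Nat.unpair (Nat.unpair E).2).1)))

/-- The number of the lengths which are tried. -/
def NT (x : ℕ) : ℕ := NS (Nat.log 2 x)

theorem ls_ll {n : α → ℕ} (hn : LS n) : LS (fun z => ll (n z)) := by
  unfold ll
  fun_prop

theorem LS.NT : LS ME.NT := by
  have h1 : LS (fun x : ℕ => ll (Nat.log 2 x)) := ls_ll (by fun_prop)
  have h2 : LS (fun x : ℕ => ll (ll (Nat.log 2 x))) := ls_ll h1
  unfold ME.NT NS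
  exact LS.div (LS.div (by fun_prop) h1) h2

theorem LS.acc (H : Parts) : LS (fun z : ℕ × ℕ × ℕ × ℕ => acc z.1 z.2.1 z.2.2.1 z.2.2.2) := by
  have hx : LS (fun z : ℕ × ℕ × ℕ × ℕ => z.2.1) := by fun_prop
  have hy : LS (fun z : ℕ × ℕ × ℕ × ℕ => z.2.2.1) := by fun_prop
  have hT : LS (fun z : ℕ × ℕ × ℕ × ℕ => z.2.2.2) := by fun_prop
  have h0 : LS (fun z : ℕ × ℕ × ℕ × ℕ => (Nat.unpair z.1).1) := by fun_prop
  have h1 : LS (fun z : ℕ × ℕ × ℕ × ℕ => (Nat.unpair (Nat.unpair z.1).2).1) := by fun_prop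
  have h2 : LS (fun z : ℕ × ℕ × ℕ × ℕ =>
      (Nat.unpair (Nat.unpair (Nat.unpair z.1).2).2).1) := by fun_prop
  have h3 : LS (fun z : ℕ × ℕ × ℕ × ℕ =>
      (Nat.unpair (Nat.unpair (Nat.unpair (Nat.unpair z.1).2).2).2).1) := by fun_prop
  have h4 : LS (fun z : ℕ × ℕ × ℕ × ℕ =>
      (Nat.unpair (Nat.unpair (Nat.unpair (Nat.unpair (Nat.unpair z.1).2).2).2).2).1) := by
    fun_prop
  have h5 : LS (fun z : ℕ × ℕ × ℕ × ℕ =>
      (Nat.unpair (Nat.unpair (Nat.unpair (Nat.unpair (Nat.unpair z.1).2).2).2).2).2) := by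
    fun_prop
  have hI : Inp (fun z : ℕ × ℕ × ℕ × ℕ =>
      (Nat.unpair (Nat.unpair (Nat.unpair z.1).2).2).1) (fun z : ℕ × ℕ × ℕ × ℕ =>
      (Nat.unpair (Nat.unpair (Nat.unpair (Nat.unpair z.1).2).2).2).1) (fun z : ℕ × ℕ × ℕ × ℕ =>
      (Nat.unpair (Nat.unpair (Nat.unpair (Nat.unpair (Nat.unpair z.1).2).2).2).2).1)
      (fun z : ℕ × ℕ × ℕ × ℕ =>
      (Nat.unpair (Nat.unpair (Nat.unpair (Nat.unpair (Nat.unpair z.1).2).2).2).2).2)
      (fun z : ℕ × ℕ × ℕ × ℕ => z.2.1) (fun z : ℕ × ℕ × ℕ × ℕ => z.2.2.1)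
      (fun z : ℕ × ℕ × ℕ × ℕ => z.2.2.2) (fun z : ℕ × ℕ × ℕ × ℕ => (Nat.unpair z.1).1)
      (fun z : ℕ × ℕ × ℕ × ℕ => (Nat.unpair (Nat.unpair z.1).2).1) :=
    ⟨h2, h3, h4, h5, hx, hy, hT, h0, h1⟩
  obtain ⟨hdd, _, _, _, _, _, _, hK⟩ := H.MLS1 hx hT h0 h1
  have hwq := (H.MLS2 hI).1
  have hlsm := (H.MLS3 hI).lsm H.LSF H.LSH fun z => ok_prm H _ _ _ _ _ _ _ _ _
  have hsim := Ep.ls_simE H.ep hx hK hlsm fun z => (H.DIM.2 _ _ _ _ _ _ _ _ _).2.2.2
  unfold ME.acc
  refine LS.mul (LS.lt01 (LS.const 0) hdd) ?_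
  have hacc : ∀ {v : ℕ × ℕ × ℕ × ℕ → ℕ}, LS v → LS (fun a => accN (v a)) := by
    intro v hv
    unfold accN
    fun_prop
  refine hacc ?_
  exact LS.comp (f := fun z : ℕ × ℕ × ℕ × ℕ => (z, _)) hwq
    (LS.prodMk LS.id hsim)

/-! ### The parameters are right for long words -/

/-- The parameters of the theorem are those of `Par`. -/
theorem par_prm {D k : ℕ} (A : Heads D k) (hk : 0 < k) {eA eN eW c : ℕ}
    {w y : List Bool} {S : ℕ} (hS : S ≤ w.length) (hl : D ≤ ll w.length) (hkn : k ≤ w.length)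
    (h6 : c * (4 * S + 8) ≤ LW w.length)
    (h7 : c + LW w.length + 4 * S + 8 ≤ 2 ^ (2 * ll w.length))
    (h8 : ∀ x, Nat.log 2 x = w.length → 2 ^ (S + 1) ≤ CR x)
    (hd : 0 < dd w.length S D k) :
    Par A eA eN eW c w y (prm eA eN eW (num A.start) (num w) (num y) S D k) ∧
      (prm eA eN eW (num A.start) (num w) (num y) S D k).S = S ∧
      (prm eA eN eW (num A.start) (num w) (num y) S D k).κ = kap w.length ∧
      (prm eA eN eW (num A.start) (num w) (num y) S D k).wk.mach.G *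
        (prm eA eN eW (num A.start) (num w) (num y) S D k).wk.mach.b =
          dd w.length S D k ^ (D - 1) * (dd w.length S D k ^ (D - 1) * dd w.length S D k) := by
  have hlog : Nat.log 2 (num w) = w.length := Pool.Agent.Helper65.LinSpace.log_num w
  have e1 : min S w.length = S := min_eq_left hS
  have e2 : min D (ll w.length) = D := min_eq_left hl
  have e3 : min (k - 1) w.length + 1 = k := by
    rw [min_eq_left (by omega)]
    omega
  have hS' : (prm eA eN eW (num A.start) (num w) (num y) S D k).S = S := by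
    show pS (Nat.log 2 (num w)) S D k = S
    rw [hlog]
    unfold pS
    rw [e1, e2, e3, ifz_ne (by omega)]
  have hD' : (prm eA eN eW (num A.start) (num w) (num y) S D k).D = D := by
    show pD (Nat.log 2 (num w)) S D k = D
    rw [hlog]
    unfold pD
    rw [e1, e2, e3, ifz_ne (by omega)]
  have hk' : (prm eA eN eW (num A.start) (num w) (num y) S D k).k = k := by
    show pk (Nat.log 2 (num w)) S D k = k
    rw [hlog]
    unfold pk
    rw [e1, e2, e3, ifz_ne (by omega)]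
  have hd' : (prm eA eN eW (num A.start) (num w) (num y) S D k).d = dd w.length S D k := by
    show pd (Nat.log 2 (num w)) S D k = _
    rw [hlog]
    unfold pd
    rw [e1, e2, e3, ifz_ne (by omega)]
  have he' : (prm eA eN eW (num A.start) (num w) (num y) S D k).e =
      dd w.length S D k ^ (D - 1) := by
    show (prm eA eN eW (num A.start) (num w) (num y) S D k).d ^
      ((prm eA eN eW (num A.start) (num w) (num y) S D k).D - 1) = _
    rw [hd', hD']
  have hκ : (prm eA eN eW (num A.start) (num w) (num y) S D k).κ = kap w.length := by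
    show kap (Nat.log 2 (num w)) = _
    rw [hlog]
  refine ⟨⟨rfl, rfl, rfl, rfl, rfl, rfl, hD', hk', hk, ?_, ?_, ?_, ?_⟩, hS', hκ, ?_⟩
  · rw [hκ]
    exact kap_pos _
  · rw [hS']
    show c * (4 * S + 8) ≤ LW (Nat.log 2 (num w))
    rw [hlog]
    exact h6
  · rw [hS']
    show c + LW (Nat.log 2 (num w)) + 4 * S + 8 ≤ 2 ^ (2 * ll (Nat.log 2 (num w)))
    rw [hlog]
    exact h7
  · rw [hS']
    exact h8 _ hlog
  · show (prm eA eN eW (num A.start) (num w) (num y) S D k).e *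
      ((prm eA eN eW (num A.start) (num w) (num y) S D k).e *
        (prm eA eN eW (num A.start) (num w) (num y) S D k).d) = _
    rw [he', hd']

/-- An accepting state is not the empty word. -/
theorem one_le_of_accepts {D k : ℕ} {A : Heads D k} {w y : List Bool} {r s : ℕ}
    (hf : A.Fits w y r s) (ha : A.AcceptsAt w y r) : 1 ≤ s := by
  have h1 := (hf r le_rfl).1
  unfold Heads.AcceptsAt at ha
  rcases hq : (A.conf w y r).q with _ | ⟨b, q⟩
  · rw [hq] at ha
    simp at ha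
  · rw [hq] at h1
    simp only [List.length_cons] at h1
    omega

/-- The machine accepts within the bounds of the theorem. -/
def GoodB {D k : ℕ} (A : Heads D k) (C : ℝ) (w y : List Bool) : Prop :=
  ∃ (r s : ℕ), (r : ℝ) * (s : ℝ) ^ ((D : ℝ) / (2 * (D : ℝ) - 1)) ≤
      C * ((w.length : ℝ) + 1) ^ ((3 * (D : ℝ) - 1) / (2 * (D : ℝ) - 1)) /
        ((Nat.log 2 w.length : ℝ) + 1) ^ 5 ∧
    (s : ℝ) ≤ C * ((w.length : ℝ) + 1) / ((Nat.log 2 w.length : ℝ) + 1) ^ 2 ∧
    A.Fits w y r s ∧ A.AcceptsAt w y r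

/-- Every machine has a code. -/
theorem exists_good (H : Parts) {D k : ℕ} (hD : 0 < D) (hk : 0 < k)
    (A : Heads D k) (C : ℝ) : ∃ e n₀ : ℕ, ∀ w y : List Bool, n₀ ≤ w.length →
    (∀ T < NT (num w), acc e (num w) (num y) T ≠ 0 → ∃ r, A.AcceptsAt w y r) ∧
    (GoodB A C w y → ∃ T < NT (num w), acc e (num w) (num y) T ≠ 0) := by
  obtain ⟨eA, eN, eW, c, hA⟩ := H.MCOR A
  obtain ⟨n₀, hn₀⟩ := eventually_atTop.1 (H.PAR5 c D k)
  obtain ⟨n₁, hn₁⟩ := eventually_atTop.1 (H.PAR D k C hD hk)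
  refine ⟨Nat.pair D (Nat.pair k (Nat.pair eA (Nat.pair eN (Nat.pair eW (num A.start))))),
    n₀ + n₁, fun w y hw => ?_⟩
  have hlog : Nat.log 2 (num w) = w.length := Pool.Agent.Helper65.LinSpace.log_num w
  obtain ⟨hl, hkn, h5⟩ := hn₀ w.length (by omega)
  have hNT : NT (num w) = NS w.length := by
    unfold NT
    rw [hlog]
  have hacc : ∀ T ≤ w.length, acc (Nat.pair D (Nat.pair k (Nat.pair eA (Nat.pair eN
      (Nat.pair eW (num A.start)))))) (num w) (num y) T = lt01 0 (dd w.length T D k) *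
      accN ((prm eA eN eW (num A.start) (num w) (num y) T D k).wq
        ((prm eA eN eW (num A.start) (num w) (num y) T D k).wk.conf (blocks w.length T D k *
          ((prm eA eN eW (num A.start) (num w) (num y) T D k).wk.mach.G *
            (prm eA eN eW (num A.start) (num w) (num y) T D k).wk.mach.b))).1) := by
    intro T hT
    have h := Ep.simE_eq H.ep (ok_prm H eA eN eW (num A.start) (num w) (num y) T D k)
      (H.DIM.2 eA eN eW (num A.start) (num w) (num y) T D k).2.2.2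
    rw [hlog] at h
    unfold acc
    simp only [Nat.unpair_pair, hlog]
    rw [min_eq_left hT, min_eq_left hl, show min (k - 1) w.length + 1 = k by
      rw [min_eq_left (by omega)]; omega, h]
    rfl
  constructor
  · intro T hT hne
    rw [hNT] at hT
    obtain ⟨hTn, h6, h7, h8⟩ := h5 T hT
    rw [hacc T hTn] at hne
    have hd : 0 < dd w.length T D k := by
      by_contra h
      apply hne
      rw [lt01, if_neg h, zero_mul]
    obtain ⟨hP, -, -, -⟩ := par_prm A hk (eA := eA) (eN := eN) (eW := eW) (c := c) (w := w)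
      (y := y) hTn hl hkn h6 h7 h8 hd
    refine (hA w y _ hP).1 (blocks w.length T D k *
          ((prm eA eN eW (num A.start) (num w) (num y) T D k).wk.mach.G *
            (prm eA eN eW (num A.start) (num w) (num y) T D k).wk.mach.b)) ?_
    have h9 : accN ((prm eA eN eW (num A.start) (num w) (num y) T D k).wq
        ((prm eA eN eW (num A.start) (num w) (num y) T D k).wk.conf (blocks w.length T D k *
          ((prm eA eN eW (num A.start) (num w) (num y) T D k).wk.mach.G *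
            (prm eA eN eW (num A.start) (num w) (num y) T D k).wk.mach.b))).1) ≠ 0 := by
      intro h
      exact hne (by rw [h, mul_zero])
    have h10 := accN_le ((prm eA eN eW (num A.start) (num w) (num y) T D k).wq
        ((prm eA eN eW (num A.start) (num w) (num y) T D k).wk.conf (blocks w.length T D k *
          ((prm eA eN eW (num A.start) (num w) (num y) T D k).wk.mach.G *
            (prm eA eN eW (num A.start) (num w) (num y) T D k).wk.mach.b))).1)
    omega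
  · rintro ⟨r, s, hr, hs, hfit, hacc'⟩
    obtain ⟨g1, g2, g3, g4, g5⟩ := hn₁ w.length (by omega) r s (one_le_of_accepts hfit hacc') hr hs
    obtain ⟨hTn, h6, h7, h8⟩ := h5 s g1
    refine ⟨s, by rw [hNT]; exact g1, ?_⟩
    obtain ⟨hP, e1, e2, e3⟩ := par_prm A hk (eA := eA) (eN := eN) (eW := eW) (c := c) (w := w)
      (y := y) hTn hl hkn h6 h7 h8 g3
    rw [hacc s g2, e3, (hA w y _ hP).2 r _ (by rw [e1]; exact hfit) hacc' (by rw [e2]; exact g4) g5,
      lt01, if_pos g3]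
    norm_num

/-- **Average-case hardness for machines with several heads on a tape of any dimension.** -/
theorem me_main (H : Parts) (c : ℕ) :
    ∃ (L : Set (List Bool)) (s : ℕ → List Bool), DLINSPACE L ∧
      (∀ n, (s n).length = n) ∧
      (∀ w, w ∈ L ↔ Odd ((List.zipWith and (s w.length) w).count true)) ∧
      ∀ (D k : ℕ), 0 < D → 0 < k → ∀ (A : Heads D k) (C : ℝ), ∃ c' : ℝ,
        ∀ (n : ℕ) (α : List Bool), ∀ M, M = L ∨ M = Lᶜ →
        ({w : List Bool | w.length = n ∧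
          (∀ v r, A.AcceptsAt w (α ++ v) r → w ∈ M) ∧
          (w ∈ M → ∃ (v : List Bool) (r t : ℕ), v.length ≤ c * n ∧
            (r : ℝ) * (t : ℝ) ^ ((D : ℝ) / (2 * (D : ℝ) - 1)) ≤
              C * ((n : ℝ) + 1) ^ ((3 * (D : ℝ) - 1) / (2 * (D : ℝ) - 1)) /
                ((Nat.log 2 n : ℝ) + 1) ^ 5 ∧
            (t : ℝ) ≤ C * ((n : ℝ) + 1) / ((Nat.log 2 n : ℝ) + 1) ^ 2 ∧
            A.Fits w (α ++ v) r t ∧ A.AcceptsAt w (α ++ v) r)}.ncard : ℝ) ≤
          2 ^ n / 2 + c' * ((min α.length (n - α.length) : ℕ) + 1) *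
            2 ^ (((n : ℝ) + α.length) / 2) := by
  obtain ⟨L, s, h1, h2, h3, h4⟩ := Pool.Agent.Helper28.Gen.avg_main acc NT (LS.acc H) LS.NT c
  refine ⟨L, s, h1, h2, h3, fun D k hD hk A C => ?_⟩
  obtain ⟨c', hc'⟩ := h4 (fun w y => ∃ r, A.AcceptsAt w y r) (GoodB A C)
    (exists_good H hD hk A C)
  refine ⟨c', fun n α M hM => ?_⟩
  refine le_trans ?_ (hc' n α M hM)
  have hfin : ({w : List Bool | w.length = n ∧
      (∀ v, (∃ r, A.AcceptsAt w (α ++ v) r) → w ∈ M) ∧
      (w ∈ M → ∃ v : List Bool, v.length ≤ c * n ∧ GoodB A C w (α ++ v))}).Finite :=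
    (List.finite_length_eq Bool n).subset fun w hw => hw.1
  refine Nat.cast_le.2 (Set.ncard_le_ncard ?_ hfin)
  rintro w ⟨hw, hw1, hw2⟩
  refine ⟨hw, fun v ⟨r, hr⟩ => hw1 v r hr, fun h => ?_⟩
  obtain ⟨v, r, t, hv, hr, ht, hfit, hacc⟩ := hw2 h
  subst hw
  exact ⟨v, hv, r, t, hr, ht, hfit, hacc⟩

/-- Languages accepted by fast machines with several heads are in linear space. -/
theorem me_lin (H : Parts) (c : ℕ) {D k : ℕ} (hD : 0 < D) (hk : 0 < k)
    (A : Heads D k) (L : Set (List Bool)) (C : ℝ) (h1 : ∀ w y r, A.AcceptsAt w y r → w ∈ L)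
    (h2 : ∀ w ∈ L, ∃ (y : List Bool) (r t : ℕ), y.length ≤ c * w.length ∧
      (r : ℝ) * (t : ℝ) ^ ((D : ℝ) / (2 * (D : ℝ) - 1)) ≤
        C * ((w.length : ℝ) + 1) ^ ((3 * (D : ℝ) - 1) / (2 * (D : ℝ) - 1)) /
          ((Nat.log 2 w.length : ℝ) + 1) ^ 5 ∧
      (t : ℝ) ≤ C * ((w.length : ℝ) + 1) / ((Nat.log 2 w.length : ℝ) + 1) ^ 2 ∧
      A.Fits w y r t ∧ A.AcceptsAt w y r) : DLINSPACE L := by
  refine Pool.Agent.Helper28.Gen.lin_main acc NT (LS.acc H) LS.NT c L
    (fun w y => ∃ r, A.AcceptsAt w y r) (GoodB A C) (exists_good H hD hk A C)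
    (fun w y ⟨r, hr⟩ => h1 w y r hr) fun w hw => ?_
  obtain ⟨y, r, t, hy, hr, ht, hfit, hacc⟩ := h2 w hw
  exact ⟨y, hy, r, t, hr, ht, hfit, hacc⟩

end Pool.Agent.Helper78.ME
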