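import Pool.Agent.Helper78.Ep.Sim

/-!
# Machines with several heads, on numbers, as itinerary machines

The event of the time `t` codes the state, the positions of the heads, and the cell which was written
in the last step with its new content. An epoch has `d` steps; an interval has `e` epochs, and a block
has `e` intervals. The modules are the surroundings of the cubes of a grid; during an epoch a head stays
in the module `cb p`, where `p` is its position at the start of the epoch. So the contents of the
`k * e` modules which belong to the `k` heads and the `e` epochs of an interval, together with the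
events of the block before the interval, determine the events of the interval.
-/

namespace Pool.Agent.Helper78.ME

open Pool.Agent.Helper65.LinSpace Finset

/-- A machine with several heads, on numbers: `σ` is the number of bits of an event, `s` the number of
bits of the content of a cell, `N` the number of cells of a module, `d` the number of steps of an
epoch, `e` the number of epochs of an interval and of intervals of a block, `k` the number of heads,
`lam` the number of bits of the number of a module; `aj v` is the active head in the event `v`,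
`pos v j` the position of the head `j`, `lp v` the cell which was written in the last step and `lc v` its
new content; `nx v c` is the next event if `c` is the content of the cell under the active head;
`cb p` is the number of the module of the cell `p`, `ix x p` the number of the cell `p` in the module `x`,
and `cel x c` the cell number `c` of the module `x`; `q0` is the first event, and at the start all
cells have the content `c0`. -/
structure Wk where
  σ : ℕ
  s : ℕ
  N : ℕ
  d : ℕ
  e : ℕ
  k : ℕ
  lam : ℕ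
  aj : ℕ → ℕ
  pos : ℕ → ℕ → ℕ
  lp : ℕ → ℕ
  lc : ℕ → ℕ
  nx : ℕ → ℕ → ℕ
  cb : ℕ → ℕ
  ix : ℕ → ℕ → ℕ
  cel : ℕ → ℕ → ℕ
  q0 : ℕ
  c0 : ℕ

namespace Wk

variable (m : Wk)

/-- The position of the active head. -/
def ap (v : ℕ) : ℕ := m.pos v (m.aj v)

/-- The event and the contents of the cells after `t` steps. -/
def conf : ℕ → ℕ × (ℕ → ℕ)
  | 0 => (m.q0, fun _ => m.c0)
  | t + 1 =>
    (m.nx (conf t).1 ((conf t).2 (m.ap (conf t).1)),
      Function.update (conf t).2 (m.ap (conf t).1)
        (m.lc (m.nx (conf t).1 ((conf t).2 (m.ap (conf t).1)))))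

/-- The number of bits of the events of an interval. -/
def wn : ℕ := m.σ * (m.e * m.d)

/-- The number of bits of an event and the content of a module. -/
def wc : ℕ := m.σ + m.s * m.N

/-- The event number `T` of the block, where `u` is the event at the start of the block and the
digits of `y` are the events `1, 2, …`. -/
def evA (u y T : ℕ) : ℕ := ifz T u (dig (2 ^ m.σ) y (T - 1))

/-- The content of the cell `p` after `T` steps of the block: `c` is the content at the start of the
block, and the digits of `y` are the events `1, 2, …`. -/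
def lk (y T p c : ℕ) : ℕ :=
  nrec c (fun t r => ifz (eq01 (m.lp (dig (2 ^ m.σ) y t)) p) r (m.lc (dig (2 ^ m.σ) y t))) T

/-- The loaded event and content number `l`; `z` is the argument of `F` and `i` the interval. -/
def gE (i z l : ℕ) : ℕ := dig (2 ^ m.wc) (z / 2 ^ (i * m.wn)) l

/-- The content of the cell which is read in the step `n` of the interval `i`; `v` is the event before
this step and `y` codes the events of the block before this step. -/
def rd (i π z n v y : ℕ) : ℕ :=
  m.lk y (i * (m.e * m.d) + n) (m.ap v)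
    (dig (2 ^ m.s) (m.gE i z (n / m.d * m.k + m.aj v) / 2 ^ m.σ)
      (m.ix (dig (2 ^ m.lam) π (n / m.d * m.k + m.aj v)) (m.ap v)))

/-- The code of the events of the block after `n` steps of the interval `i`. -/
def gen (i π z n : ℕ) : ℕ :=
  nrec (z % 2 ^ (i * m.wn)) (fun n y => y + 2 ^ (m.σ * (i * (m.e * m.d) + n)) *
    (m.nx (m.evA (m.gE i z 0 % 2 ^ m.σ) y (i * (m.e * m.d) + n))
      (m.rd i π z n (m.evA (m.gE i z 0 % 2 ^ m.σ) y (i * (m.e * m.d) + n)) y) % 2 ^ m.σ)) n

/-- The number of pairs of an epoch and a head for which the itinerary `π` is wrong. -/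
def chk (i π z y : ℕ) : ℕ :=
  ∑ h ∈ range (m.k * m.e), (1 - eq01 (dig (2 ^ m.lam) π h)
    (m.cb (m.pos (m.evA (m.gE i z 0 % 2 ^ m.σ) y (i * (m.e * m.d) + h / m.k * m.d)) (h % m.k))))

/-- The events of the interval `i`, or `0` if the itinerary is wrong. -/
def F (i π z : ℕ) : ℕ :=
  ifz (m.chk (min i (m.e - 1)) π z (m.gen (min i (m.e - 1)) π z (m.e * m.d)))
    (m.gen (min i (m.e - 1)) π z (m.e * m.d) / 2 ^ (min i (m.e - 1) * m.wn)) 0

/-- The event at the end of the block and the content of the module `x` at this time. -/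
def H (x z : ℕ) : ℕ :=
  m.evA (z / 2 ^ (m.e * m.wn) % 2 ^ m.σ) (z % 2 ^ (m.e * m.wn)) (m.e * (m.e * m.d)) + 2 ^ m.σ *
    tab (2 ^ m.s) m.N fun c => m.lk (z % 2 ^ (m.e * m.wn)) (m.e * (m.e * m.d)) (m.cel x c)
      (dig (2 ^ m.s) (z / 2 ^ (m.e * m.wn) / 2 ^ m.σ) c)

/-- The itinerary machine. -/
def mach : Ep.Mach where
  σ := m.σ
  a := m.s * m.N
  b := m.e * m.d
  G := m.e
  E := m.k * m.e
  lam := m.lam
  F := m.F
  H := m.H
  q0 := m.q0
  M0 := fun _ => tab (2 ^ m.s) m.N fun _ => m.c0
  ev t := (m.conf t).1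
  ct b x := tab (2 ^ m.s) m.N fun c => (m.conf (b * (m.e * (m.e * m.d)))).2 (m.cel x c)

/-- The properties of the machine which are needed. -/
structure Good : Prop where
  hσ : 0 < m.σ
  hd : 0 < m.d
  he : 0 < m.e
  hk : 0 < m.k
  hl : 0 < m.lam
  ev_lt : ∀ t, (m.conf t).1 < 2 ^ m.σ
  mem_lt : ∀ t p, (m.conf t).2 p < 2 ^ m.s
  aj_lt : ∀ v, m.aj v < m.k
  lp_eq : ∀ t, m.lp (m.conf (t + 1)).1 = m.ap (m.conf t).1
  cb_lt : ∀ p, m.cb p < 2 ^ m.lam
  geo : ∀ t r j, r < m.d → j < m.k →
    m.ix (m.cb (m.pos (m.conf t).1 j)) (m.pos (m.conf (t + r)).1 j) < m.N ∧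
      m.cel (m.cb (m.pos (m.conf t).1 j))
        (m.ix (m.cb (m.pos (m.conf t).1 j)) (m.pos (m.conf (t + r)).1 j)) =
          m.pos (m.conf (t + r)).1 j

end Wk

/-- A family of machines whose parameters and functions are computed in linear space. -/
structure LSW {α : Type} [Ctx α] (m : α → Wk) (C : α → ℕ) : Prop where
  σ : LS (fun z => (m z).σ)
  s : LS (fun z => (m z).s)
  N : LS (fun z => (m z).N)
  d : LS (fun z => (m z).d)
  e : LS (fun z => (m z).e)
  k : LS (fun z => (m z).k)
  lam : LS (fun z => (m z).lam)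
  aj : LS (fun z : α × ℕ => (m z.1).aj z.2)
  pos : LS (fun z : α × ℕ × ℕ => (m z.1).pos z.2.1 z.2.2)
  lp : LS (fun z : α × ℕ => (m z.1).lp z.2)
  lc : LS (fun z : α × ℕ => (m z.1).lc z.2)
  nx : LS (fun z : α × ℕ × ℕ => (m z.1).nx z.2.1 z.2.2)
  cb : LS (fun z : α × ℕ => (m z.1).cb z.2)
  ix : LS (fun z : α × ℕ × ℕ => (m z.1).ix z.2.1 z.2.2)
  cel : LS (fun z : α × ℕ × ℕ => (m z.1).cel z.2.1 z.2.2)
  q0 : LS (fun z => (m z).q0)
  c0 : LS (fun z => (m z).c0)
  bd : LS C
  hd : ∀ z, 0 < (m z).d
  he : ∀ z, 0 < (m z).e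
  hk : ∀ z, 0 < (m z).k
  hN : ∀ z, 0 < (m z).N
  lc_lt : ∀ z v, (m z).lc v < 2 ^ (m z).s
  c0_lt : ∀ z, (m z).c0 < 2 ^ (m z).s
  hC : ∀ z, 2 ^ ((m z).e * (m z).wn + ((m z).k * (m z).e + 1) * (m z).wc) ≤ C z
  hC' : ∀ z, 2 ^ ((m z).lam * ((m z).k * (m z).e)) ≤ C z

/-! ### The statements of the parts -/

/-- LKT. The contents of the cells are determined by the events of the block. Let the digits `t < n` of
`y` be the events number `t + 1` of the block `b`. Then for `T ≤ n` and every cell `p`, `lk y T p c` is the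
content of `p` after `T` steps of the block if `c` is its content at the start of the block. Induction
on `T`: `lk y (T + 1) p c = ifz (eq01 (lp v) p) (lk y T p c) (lc v)` with the event `v` number `T + 1`, and
`lp v = ap (event number T)` (`lp_eq`), so both contents change in the same way
(`conf (t + 1) = (nx …, update … (ap …) (lc (nx …)))`, and `v = nx …`). -/
def LKT_stmt : Prop := ∀ (m : Wk), m.Good → ∀ (b n y : ℕ),
    (∀ t < n, dig (2 ^ m.σ) y t = (m.conf (b * (m.e * (m.e * m.d)) + t + 1)).1) →
    ∀ T ≤ n, ∀ p, m.lk y T p ((m.conf (b * (m.e * (m.e * m.d)))).2 p) =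
      (m.conf (b * (m.e * (m.e * m.d)) + T)).2 p

/-- WF (may assume LKT). Put `K = b * (G * b')`, `b' = e * d` (number of steps of an interval), and let
`z = zF b i π`. Digits (`dig_tab`, `Nat.add_mul_mod_self_left`, `Nat.add_mul_div_left`,
`te b (i * b') < 2 ^ (i * wn)` by `tab_lt`, `wn = σ * b'`): `z % 2 ^ (i wn) = te b (i b')`,
`z / 2 ^ (i wn) = tab (2 ^ wc) E (…)`, so for `l < E` `gE i z l = tn b (dig (2^lam) π l)`, whose
remainder modulo `2^σ` is the event `ev K` and whose quotient by `2^σ` is
`tab (2^s) N (fun c => (conf K).2 (cel x c))`, `x = dig (2^lam) π l`.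
Let `π₀ = tab (2^lam) E (fun h => cb (pos (ev (K + i b' + h / k * d)) (h % k)))`; then `π₀ < 2^(lam * E)`
(`tab_lt`, `cb_lt`). Let the digits `h < l * k`, `l ≤ e`, of `π` be the same as those of `π₀`. Claim: for
`n ≤ l * d` the number `y = gen i π z n` is smaller than `2 ^ (σ * (i b' + n))` and has the digits
`ev (K + t + 1)` for `t < i b' + n`. Induction on `n`: let `n < l * d`; then `evA … y (i b' + n)` is
`v = ev (K + i b' + n)` (for `i b' + n = 0` it is `gE i z 0 % 2^σ = ev K`; `0 < E`). With `j = aj v < k` and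
`h = n / d * k + j < l * k` the digit `h` of `π` is `x = cb (pos (ev (K + i b' + n / d * d)) j)`
(`h / k = n / d`, `h % k = j`), and by `geo` (with `r = n % d`) the index `c = ix x (ap v)` is
`< N` and `cel x c = ap v`, so the digit `c` of the content is `(conf K).2 (ap v)` (`mem_lt`), and by LKT
`rd … = (conf (K + i b' + n)).2 (ap v)`. So the new digit is the next event. (Digits of
`y + 2 ^ (σ * N') * w` with `y < 2 ^ (σ * N')`, `w < 2 ^ σ`: the old ones, and `w` at the place `N'`.)
If `π = π₀`, the claim with `l = e` shows that all digits are checked positively (`chk = 0`, and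
`h / k * d ≤ b'`, `evA` of `K + i b' + h / k * d`), and `gen / 2 ^ (i wn)` is the `tab` of the events of the
interval (equal digits, `tab_dig`). If `π ≠ π₀`, both `< 2 ^ (lam * E)`, let `h` be the least number
with different digits, `h < E`, and `l = h / k < e`. By the claim for this `l`, `gen i π z (l * d)`, and so
`gen i π z b'` (later steps do not change the earlier digits: each step adds a multiple of
`2 ^ (σ * (i b' + n))`), has the right digits up to the event number `i b' + l * d`, so the term `h` in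
`chk` is `1`, and `F = 0`. -/
def WF_stmt : Prop := ∀ (m : Wk), m.Good → ∀ b i, i < m.e →
    ∃ π₀ < 2 ^ (m.lam * (m.k * m.e)), ∀ π < 2 ^ (m.lam * (m.k * m.e)),
      m.F i π (m.mach.zF b i π) = if π = π₀ then
        tab (2 ^ m.σ) (m.e * m.d) (fun r => (m.conf (b * (m.e * (m.e * m.d)) +
          i * (m.e * m.d) + r + 1)).1) else 0

/-- WH (may assume LKT). As in WF: `zH b x % 2 ^ (e * wn)` is `te b (e * b')`, the tab of the events, and
`zH b x / 2 ^ (e * wn) = tn b x`. `evA` is the event at the end of the block (`0 < e * (e * d)`), and for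
each `c < N` `lk` is by LKT the content of the cell `cel x c` at the end of the block. -/
def WH_stmt : Prop := ∀ (m : Wk), m.Good → ∀ b x, m.H x (m.mach.zH b x) = m.mach.tn (b + 1) x

/-- LSF. The function `F` is computed in linear space. Put `i' = min i (e - 1)`; `e, k, N > 0`. `2 ^ σ`,
`2 ^ wc`, `2 ^ s`, `2 ^ lam`, `2 ^ (i' * wn)`, and `2 ^ (σ * (i' * (e * d) + n))` for `n ≤ e * d` are at most `C`
by `hC`, `hC'` (`σ, s ≤ wc ≤ (k e + 1) wc`, `lam ≤ lam * (k e)`, `i' * (e d) + n ≤ e * (e d)`; in the
recursion write `2 ^ min (σ * (…)) (e * wn)`), so they are computed by `LS.pow_of_le`. `lk` is `LS.nrec`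
with the bound `c + 2 ^ s`; `gen` is `LS.nrec` with the bound `C` (its values are smaller than
`2 ^ (σ * (i' * (e * d) + n))`). `chk` is a sum of at most `k * e` ones. -/
def LSF_stmt : Prop := ∀ {α : Type} [Ctx α] {m : α → Wk} {C : α → ℕ}, LSW m C →
    LS (fun z : α × ℕ × ℕ × ℕ => (m z.1).F z.2.1 z.2.2.1 z.2.2.2)

/-- LSH. The function `H` is computed in linear space: `2 ^ (e * wn) ≤ C` and `2 ^ (s * N) ≤ C`, so
`LS.pow_of_le` and `LS.tab` (the digits are `< 2 ^ s`, since `lk < 2 ^ s` if `c < 2 ^ s`); also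
`M0 = tab (2 ^ s) N (fun _ => c0)`. -/
def LSH_stmt : Prop := ∀ {α : Type} [Ctx α] {m : α → Wk} {C : α → ℕ}, LSW m C →
    LS (fun z : α × ℕ × ℕ => (m z.1).H z.2.1 z.2.2) ∧
    LS (fun z : α × ℕ => (m z.1).mach.M0 z.2)

/-- The itinerary machine satisfies its conditions. -/
theorem Wk.Good.ok {m : Wk} (h : m.Good) (hF : WF_stmt) (hH : WH_stmt) : m.mach.Ok := by
  have hlt : ∀ t, (m.mach.ev t) < 2 ^ m.mach.σ := h.ev_lt
  refine ⟨h.hσ, Nat.mul_pos h.he h.hd, Nat.mul_pos h.hk h.he, h.hl, hlt, fun b x => ?_, rfl,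
    fun x => ?_, fun b i hi => hF m h b i hi, fun b x => hH m h b x⟩
  · have h1 : ∀ (n : ℕ) (f : ℕ → ℕ), (∀ c, f c < 2 ^ m.s) → tab (2 ^ m.s) n f < 2 ^ (m.s * n) := by
      intro n f hf
      rw [pow_mul]
      exact tab_lt fun i _ => hf i
    exact h1 _ _ fun c => h.mem_lt _ _
  · show tab (2 ^ m.s) m.N (fun c => (m.conf (0 * (m.e * (m.e * m.d)))).2 (m.cel x c)) = _
    rw [Nat.zero_mul]
    rfl

/-- The family of the itinerary machines is computed in linear space. -/
theorem LSW.lsm {α : Type} [Ctx α] {m : α → Wk} {C : α → ℕ} (h : LSW m C) (hF : LSF_stmt)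
    (hH : LSH_stmt) (hok : ∀ z, (m z).mach.Ok) : Ep.LSM (fun z => (m z).mach) C := by
  have h1 := h.σ
  have h2 := h.s
  have h3 := h.N
  have h4 := h.e
  have h5 := h.d
  have h6 := h.k
  refine ⟨h1, LS.mul h2 h3, LS.mul h4 h5, h4, LS.mul h6 h4, h.lam, hF h, (hH h).1, h.q0, (hH h).2,
    h.bd, hok, h.hC, h.hC'⟩

end Pool.Agent.Helper78.ME
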