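import Pool.Agent.Helper78.ME.Defs
import Pool.Agent.Helper78.ME.Wk
import Pool.Agent.Helper65.OH.Num

/-!
# The machine on numbers of a machine with several heads

Words of length at most `S` are coded by their numbers; `0` means a failure (a word was too long, or
a head has left the box). The position of a head has the coordinates `h j i + 2 ^ (κ - 1) < 2 ^ κ`. An
event codes the number of the state, the number of the content which was written in the last step,
and the `D * (k + 1)` coordinates of the positions of the heads and of the cell which was written in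
the last step. The tape is divided into cubes of side `d`; a module is a cube with the neighbouring
cubes, so it has `(3 d) ^ D` cells.
-/

namespace Pool.Agent.Helper78.ME

open Pool.Agent.Helper65.LinSpace Pool.Agent.Helper78.Mpc Pool.Agent.Helper28.Ram Finset

/-- The parameters. -/
structure Prm where
  eA : ℕ
  eN : ℕ
  eW : ℕ
  st : ℕ
  Λ : ℕ
  β : ℕ
  B : ℕ
  x : ℕ
  y : ℕ
  S : ℕ
  κ : ℕ
  D : ℕ
  k : ℕ
  d : ℕ
  e : ℕ

namespace Prm

variable (m : Prm)

/-- The number of bits of an event. -/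
def σ : ℕ := 2 * (m.S + 1) + m.κ * (m.D * (m.k + 1))

/-- The state of the machine. -/
def wq (v : ℕ) : ℕ := v % 2 ^ (m.S + 1)

/-- The content written in the last step. -/
def wl (v : ℕ) : ℕ := v / 2 ^ (m.S + 1) % 2 ^ (m.S + 1)

/-- The coordinate `i` of the head `j`, or of the cell written in the last step (`j = k`). -/
def cq (v j i : ℕ) : ℕ := dig (2 ^ m.κ) (v / 2 ^ (2 * (m.S + 1))) (j * m.D + i)

/-- The code of a state, a content and coordinates. -/
def mk' (u l : ℕ) (c : ℕ → ℕ → ℕ) : ℕ :=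
  u + 2 ^ (m.S + 1) * l + 2 ^ (2 * (m.S + 1)) *
    tab (2 ^ m.κ) (m.D * (m.k + 1)) fun h => c (h / m.D) (h % m.D) % 2 ^ m.κ

/-- The position of the head `j` as a number. -/
def pos (v j : ℕ) : ℕ := tab (2 ^ m.κ) m.D (m.cq v j)

/-- The number of the active head. -/
def aj (v : ℕ) : ℕ := ∑ i ∈ range (m.k - 1), eq01 (letN (m.wq v) (2 * m.D + 1 + i)) 2

/-- The number of the address, `0` if it is too long. -/
def adN (v : ℕ) : ℕ := capN m.S (fnN m.eA m.S m.Λ m.β m.B (m.wq v))

/-- The address. -/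
def adr (v : ℕ) : ℕ := m.adN v - 2 ^ Nat.log 2 (m.adN v)

/-- The number of the word `letW`. -/
def lw (c : ℕ) : ℕ := ifz c 4 (ifz (c - 1) 5 7)

/-- The number of the word which the functions get. -/
def inpN (v c : ℕ) : ℕ :=
  catN (sdN (m.wq v)) (catN (lw (letN m.x (m.adr v))) (catN (lw (letN m.y (m.adr v))) c))

/-- The new state. -/
def nu (v c : ℕ) : ℕ := capN m.S (fnN m.eN m.S m.Λ m.β m.B (m.inpN v c))

/-- The new content. -/
def nw (v c : ℕ) : ℕ := capN m.S (fnN m.eW m.S m.Λ m.β m.B (m.inpN v c))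

/-- The letter for `+ 1`. -/
def pl (u i : ℕ) : ℕ := eq01 (letN u (2 * i + 1)) 2

/-- The letter for `- 1`. -/
def mi (u i : ℕ) : ℕ := eq01 (letN u (2 * i + 2)) 2

/-- The number of the coordinates in which the active head leaves the box. -/
def viol (v u : ℕ) : ℕ :=
  ∑ i ∈ range m.D, (1 - le01 (mi u i) (m.cq v (m.aj v) i + pl u i) *
    lt01 (m.cq v (m.aj v) i + pl u i - mi u i) (2 ^ m.κ))

/-- Nonzero if the step is possible. -/
def ok (v c : ℕ) : ℕ :=
  m.adN v * (c * (m.nu v c * (m.nw v c * eq01 (m.viol v (m.nu v c)) 0)))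

/-- The coordinates after a step in which nothing moves. -/
def c0 (v j i : ℕ) : ℕ := ifz (eq01 j m.k) (m.cq v j i) (m.cq v (m.aj v) i)

/-- The coordinates after a step with the new state `u`. -/
def c1 (v u j i : ℕ) : ℕ :=
  ifz (eq01 j m.k) (ifz (eq01 j (m.aj v)) (m.cq v j i) (m.cq v j i + pl u i - mi u i))
    (m.cq v (m.aj v) i)

/-- The next event, if `c` is the content of the cell under the active head. -/
def nx (v c : ℕ) : ℕ :=
  ifz (accN (m.wq v))
    (ifz (m.ok v c) (m.mk' 0 c (m.c0 v)) (m.mk' (m.nu v c) (m.nw v c) (m.c1 v (m.nu v c))))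
    (m.mk' (m.wq v) c (m.c0 v))

/-- The number of the module of the cell `p`. -/
def cb (p : ℕ) : ℕ := tab (2 ^ m.κ) m.D fun i => dig (2 ^ m.κ) p i / m.d

/-- The number of the cell `p` in the module `x`. -/
def ix (x p : ℕ) : ℕ :=
  tab (3 * m.d) m.D fun i => (dig (2 ^ m.κ) p i + m.d - dig (2 ^ m.κ) x i * m.d) % (3 * m.d)

/-- The cell number `c` of the module `x`. -/
def cel (x c : ℕ) : ℕ :=
  tab (2 ^ m.κ) m.D fun i => (dig (2 ^ m.κ) x i * m.d + dig (3 * m.d) c i - m.d) % 2 ^ m.κ

/-- The first event. -/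
def q0 : ℕ := m.mk' (capN m.S m.st) 0 fun _ _ => 2 ^ (m.κ - 1)

/-- The machine with several heads, on numbers. -/
def wk : Wk where
  σ := m.σ
  s := m.S + 1
  N := (3 * m.d) ^ m.D
  d := m.d
  e := m.e
  k := m.k
  lam := m.κ * m.D + 1
  aj := m.aj
  pos := m.pos
  lp := fun v => m.pos v m.k
  lc := m.wl
  nx := m.nx
  cb := m.cb
  ix := m.ix
  cel := m.cel
  q0 := m.q0
  c0 := 1

end Prm

/-! ### The parameters of the simulation -/

/-- The bits of a coordinate. -/
def kap (n : ℕ) : ℕ := 4 * ll n + 6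

/-- The number of registers of a simulation with words of length `S`, dimension `D`, `k` heads, and
cubes of side `d` (`e = d ^ (D - 1)`). -/
def cost (n S D k d : ℕ) : ℕ :=
  d ^ (D - 1) * ((2 * (S + 1) + kap n * (D * (k + 1))) * (d ^ (D - 1) * d)) +
    (k * d ^ (D - 1) + 1) * ((2 * (S + 1) + kap n * (D * (k + 1))) + (S + 1) * (3 * d) ^ D)

/-- `1` if a simulation with these parameters fits into linear space. -/
def fits (n S D k d : ℕ) : ℕ :=
  le01 (cost n S D k d) (Ep.mR n) * (le01 ((kap n * D + 1) * (k * d ^ (D - 1))) (n + 8) *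
    le01 (kap n * D + 1) (Ep.mR n + 1))

/-- The side of the cubes: the largest `d` which fits, or `0`. -/
def dd (n S D k : ℕ) : ℕ := ∑ j ∈ range (n + 9), fits n S D k (j + 1)

/-- The length of the words, limited; `0` if no simulation fits. -/
def pS (n S D k : ℕ) : ℕ := ifz (dd n (min S n) (min D (ll n)) (min (k - 1) n + 1)) 0 (min S n)

/-- The dimension, limited; `0` if no simulation fits. -/
def pD (n S D k : ℕ) : ℕ := ifz (dd n (min S n) (min D (ll n)) (min (k - 1) n + 1)) 0 (min D (ll n))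

/-- The number of heads, limited; `1` if no simulation fits. -/
def pk (n S D k : ℕ) : ℕ :=
  ifz (dd n (min S n) (min D (ll n)) (min (k - 1) n + 1)) 1 (min (k - 1) n + 1)

/-- The side of the cubes; `1` if no simulation fits. -/
def pd (n S D k : ℕ) : ℕ :=
  ifz (dd n (min S n) (min D (ll n)) (min (k - 1) n + 1)) 1
    (dd n (min S n) (min D (ll n)) (min (k - 1) n + 1))

/-- All parameters. -/
def prm (eA eN eW st x y S D k : ℕ) : Prm where
  eA := eA
  eN := eN
  eW := eW
  st := st
  Λ := LW (Nat.log 2 x)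
  β := 2 ^ (2 * ll (Nat.log 2 x))
  B := CR x
  x := x
  y := y
  S := pS (Nat.log 2 x) S D k
  κ := kap (Nat.log 2 x)
  D := pD (Nat.log 2 x) S D k
  k := pk (Nat.log 2 x) S D k
  d := pd (Nat.log 2 x) S D k
  e := pd (Nat.log 2 x) S D k ^ (pD (Nat.log 2 x) S D k - 1)

/-- The number of blocks. -/
def blocks (n S D k : ℕ) : ℕ :=
  min (Ep.mR n / (pd n S D k ^ (pD n S D k - 1) + 2))
    (min ((n + 8) / ((kap n * pD n S D k + 1) * (pk n S D k * pd n S D k ^ (pD n S D k - 1))))
      ((Ep.mR n + 1) / (kap n * pD n S D k + 1)) - 1)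

end Pool.Agent.Helper78.ME
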